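import Mathlib
import Pool.Agent.Lib.MP_fcdc94_gt.Log.Zero

set_option autoImplicit false

/-!
The mapping torus of the bounding pair map of the closed surface of genus three: its `SU(2)`
invariant has leading term `r ^ 4 log r / π ^ 2` (`G = SU(2)`).
-/

open Complex Pool.Agent.Lib.MP_fcdc94_gt Pool.Agent.Lib.MP_fcdc94_gt.Log

namespace Pool.Agent.Results.MP_fcdc94_gt.BoundingPair

theorem result :
    (∀ r : ℕ, 2 ≤ r →
      ‖boundingPairBundle r - (((r : ℝ) ^ 4 * Real.log r / Real.pi ^ 2 : ℝ) : ℂ)‖ ≤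
        (r : ℝ) ^ 4) ∧
    ∀ u : ℕ → ℂ, (∀ r, ‖u r‖ = 1) →
      (∀ (N : ℕ) (b : Fin N → ℂ) (c s : Fin N → ℝ) (C : ℝ), ¬ ∀ r : ℕ, 2 ≤ r →
        ‖u r * boundingPairBundle r -
          ∑ i, b i * cexp (2 * Real.pi * I * (r * c i)) * (((r : ℝ) ^ (s i) : ℝ) : ℂ)‖ ≤
            C * (r : ℝ) ^ 4) ∧
      ∀ (X : Expansion) (δ : ℝ), 0 < δ →
        (¬ ∀ E, X.Bound δ (fun r => u r * boundingPairBundle r) E) ∧
        ((∀ j, 0 < X.v j) → ¬ X.Bound δ (fun r => u r * boundingPairBundle r) 0) :=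
  ⟨fun r hr => bundle_asymp r hr, fun u hu => ⟨fun N b c s C => bundle_not_approx u hu N b c s C,
    fun X δ hδ => ⟨bundle_fail u hu X δ hδ, fun hv => bundle_zero u hu X hv δ hδ⟩⟩⟩

end Pool.Agent.Results.MP_fcdc94_gt.BoundingPair
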