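import Mathlib
import Pool.Agent.Lib.MP_fcdc94_gt.Log.Zero

set_option autoImplicit false

/-!
Rational homology spheres, among them the flat Hantzsche-Wendt manifold, whose `SU(2)` invariant
has leading term `√r log r` (`G = SU(2)`).  Exact value for `n = 0` (see `Log.hw_exact`):
`(-1) ^ r √(2/r) ∑ cot (π k / (2 r))`, the sum over the odd `k` with `1 ≤ k ≤ r - 1`.
-/

open Complex Pool.Agent.Lib.MP_fcdc94_gt Pool.Agent.Lib.MP_fcdc94_gt.Log

namespace Pool.Agent.Results.MP_fcdc94_gt.HantzscheWendt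

theorem result (n : ℤ) :
    (∃ C : ℝ, ∀ r : ℕ, 2 ≤ r →
      |‖treeSurgery n r‖ - (if n = 0 then 1 else 1 / 2) * (Real.sqrt 2 / Real.pi) *
        Real.sqrt r * Real.log r| ≤ C * Real.sqrt r) ∧
    ∀ u : ℕ → ℂ, (∀ r, ‖u r‖ = 1) →
      (∀ (N : ℕ) (b : Fin N → ℂ) (c s : Fin N → ℝ) (C : ℝ), ¬ ∀ r : ℕ, 2 ≤ r →
        ‖u r * treeSurgery n r -
          ∑ i, b i * cexp (2 * Real.pi * I * (r * c i)) * (((r : ℝ) ^ (s i) : ℝ) : ℂ)‖ ≤
            C * Real.sqrt r) ∧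
      ∀ (X : Expansion) (δ : ℝ), 0 < δ →
        (¬ ∀ E, X.Bound δ (fun r => u r * treeSurgery n r) E) ∧
        ((∀ j, 0 < X.v j) → ¬ X.Bound δ (fun r => u r * treeSurgery n r) 0) := by
  refine ⟨?_, fun u hu => ⟨?_, fun X δ hδ => ⟨tree_fail n u hu X δ hδ, fun hv =>
    tree_zero n u hu X hv δ hδ⟩⟩⟩
  · obtain ⟨C, hC⟩ := tree_norm n (fun _ => 1) (fun _ => norm_one)
    refine ⟨C, fun r hr => ?_⟩
    have h := hC r hr
    rw [one_mul, ← Real.sqrt_eq_rpow] at h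
    exact h
  · intro N b c s C h
    refine tree_not_approx n u hu N b c s C fun r hr => ?_
    rw [← Real.sqrt_eq_rpow]
    exact h r hr

end Pool.Agent.Results.MP_fcdc94_gt.HantzscheWendt
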