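import Mathlib
import Pool.Agent.Lib.MP_fcdc94_gt.ConnFail

set_option autoImplicit false

/-!
Connected sums of two torus bundles for which a leading coefficient of the `SU(2)` invariant has
an argument that is not a rational multiple of `π`.
-/

open Pool.Agent.Lib.MP_fcdc94_gt

namespace Pool.Agent.Results.MP_fcdc94_gt.IrrationalPhase

theorem result (n m : ℕ) (hn : Squarefree n) (hm : Squarefree m) (hodd : Odd n)
    (h4 : 4 ∣ n + m) (h1 : m ≠ 3 * n) (h2 : n ≠ 3 * m) (f₁ f₂ : ℤ) (δ : ℝ) (hδ : 0 < δ)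
    (X : Expansion) (hI : ∀ j, ∃ q : ℚ, X.I j = q) :
    ¬ ∀ E, X.Bound δ (connSum (torusBundle n f₁) (torusBundle (-(m : ℤ)) f₂)) E :=
  conn_fail n m hn hm hodd h4 h1 h2 f₁ f₂ δ hδ X hI

end Pool.Agent.Results.MP_fcdc94_gt.IrrationalPhase
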