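import Mathlib
import Pool.Agent.Lib.MP_fcdc94_gt.LensFail

set_option autoImplicit false

/-!
Lens spaces for which the whole contribution of the phase `0` vanishes (`G = SU(2)`), so that no
expansion with `v 0 > 0` exists, whatever the step of the expansion.
-/

open Pool.Agent.Lib.MP_fcdc94_gt

namespace Pool.Agent.Results.MP_fcdc94_gt.LensSpaces

theorem result (p q s l : ℕ) (hqp : q < p) (hcop : Nat.Coprime p q) (hs : Squarefree s)
    (hp : p = s * l ^ 2) (h1 : ¬ (l : ℤ) ∣ q - 1) (h2 : ¬ (l : ℤ) ∣ q + 1) :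
    (∃ a : List ℤ, (∀ x ∈ a, 2 ≤ x) ∧ frac a = ((p : ℤ), (q : ℤ))) ∧
      ∀ a : List ℤ, (∀ x ∈ a, 2 ≤ x) → frac a = ((p : ℤ), (q : ℤ)) →
        ∀ (f : ℤ) (δ : ℝ), 0 < δ → ∀ X : Expansion, 0 < X.v 0 →
          ¬ ∀ E, X.Bound δ (chainSurgery a f) E :=
  ⟨exists_chain q p hqp hcop, fun a ha hfr f δ hδ X hv =>
    lens_fail a ha p q s l hfr hs hp h1 h2 f δ hδ X hv⟩

end Pool.Agent.Results.MP_fcdc94_gt.LensSpaces
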